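import Pool.Agent.NPG.StmtsD

/-!
# CIR (MP_005a41_gt, squad NPY): the Cantor group in the circle
-/

set_option autoImplicit false

namespace Pool.Agent.NPY.H10

open MeasureTheory Set Topology
open Pool.Agent.LSG

theorem sphere_unc : ¬ {v : EuclideanSpace ℝ (Fin 2) | ‖v‖ = 1}.Countable := by
  intro h
  have h1 : ((fun v : EuclideanSpace ℝ (Fin 2) => v 0) ''
      {v : EuclideanSpace ℝ (Fin 2) | ‖v‖ = 1}).Countable := h.image _
  have h2 : Set.Icc (0 : ℝ) 1 ⊆ (fun v : EuclideanSpace ℝ (Fin 2) => v 0) ''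
      {v : EuclideanSpace ℝ (Fin 2) | ‖v‖ = 1} := by
    rintro t ⟨ht0, ht1⟩
    refine ⟨WithLp.toLp 2 ![t, Real.sqrt (1 - t ^ 2)], ?_, rfl⟩
    show ‖(WithLp.toLp 2 ![t, Real.sqrt (1 - t ^ 2)] : EuclideanSpace ℝ (Fin 2))‖ = 1
    rw [EuclideanSpace.norm_eq, Fin.sum_univ_two]
    show Real.sqrt (‖t‖ ^ 2 + ‖Real.sqrt (1 - t ^ 2)‖ ^ 2) = 1
    rw [Real.norm_eq_abs, Real.norm_eq_abs, sq_abs, sq_abs, Real.sq_sqrt (by nlinarith)]
    have h3 : t ^ 2 + (1 - t ^ 2) = 1 := by ring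
    rw [h3, Real.sqrt_one]
  have h4 := h1.mono h2
  have h5 := Cardinal.Real.Icc_countable_iff.mp h4
  linarith

theorem cir : CirStmt := by
  have hC : IsClosed {v : EuclideanSpace ℝ (Fin 2) | ‖v‖ = 1} :=
    isClosed_eq continuous_norm continuous_const
  obtain ⟨f, hf1, hf2, hf3⟩ := hC.exists_nat_bool_injection_of_not_countable sphere_unc
  let e : K → (ℕ → Bool) := fun x n => decide (x n = 1)
  have he : Continuous e := by
    refine continuous_pi fun n => ?_
    exact (continuous_of_discreteTopology (f := fun z : ZMod 2 => decide (z = 1))).comp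
      (continuous_apply n)
  have hz : ∀ a b : ZMod 2, decide (a = 1) = decide (b = 1) → a = b := by decide
  have hi : Function.Injective e := by
    intro x y hxy
    funext n
    exact hz _ _ (congrFun hxy n)
  exact ⟨f ∘ e, hf2.comp he, hf3.comp hi, fun x => hf1 ⟨e x, rfl⟩⟩

end Pool.Agent.NPY.H10
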